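import Pool.Agent.EWG.StmtsC
import Pool.Agent.Common_PNT.PNT

/-!
# Squad EWG, row LOS: the loss from `p + l > n`
-/

set_option autoImplicit false

namespace Pool.Agent.EWG.H62

open Finset Filter Topology Pool.Agent.EWG

theorem pc_card (n : ℕ) : Nat.primeCounting n = ((range (n + 1)).filter Nat.Prime).card := by
  rw [Nat.primeCounting, Nat.primeCounting', Nat.count_eq_card_filter_range]

theorem los (h1 : TwaStmt) : LosStmt := by
  classical
  intro η hη
  obtain ⟨A, hA⟩ := exists_nat_ge (4 / η)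
  have hA0 : (0 : ℝ) < (A : ℝ) := lt_of_lt_of_le (by positivity) hA
  have h1' : ∀ a : ℕ, ∃ C : ℝ, 0 < C ∧ ∃ X : ℕ, ∀ x : ℕ, X ≤ x →
      (((pr (Icc 1 x)).filter (fun n => ((a + 1) * n + 1).Prime)).card : ℝ) ≤
        C * x / (Real.log x) ^ 2 := fun a => h1 (a + 1) (by omega)
  choose C hC X hX using h1'
  obtain ⟨K, hK⟩ : ∃ K : ℝ, K = ∑ a ∈ range A, C a := ⟨_, rfl⟩
  have hK0 : 0 ≤ K := by
    rw [hK]
    exact Finset.sum_nonneg fun a _ => (hC a).le
  obtain ⟨X₁, hX₁⟩ : ∃ X₁ : ℕ, ∀ a ∈ range A, X a ≤ X₁ :=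
    ⟨∑ a ∈ range A, X a, fun a ha =>
      Finset.single_le_sum (f := fun a => X a) (fun _ _ => Nat.zero_le _) ha⟩
  obtain ⟨c, hc⟩ : ∃ c : ℝ, c = (A : ℝ) / ((A : ℝ) + 1) := ⟨_, rfl⟩
  have hc0 : 0 < c := by rw [hc]; positivity
  have hc1 : c < 1 := by
    rw [hc, div_lt_one (by positivity)]
    linarith
  have hcA : c * ((A : ℝ) + 1) = A := by
    rw [hc]
    field_simp
  obtain ⟨ε, hε⟩ : ∃ ε : ℝ, ε = min (η / 16) (1 / 2) := ⟨_, rfl⟩
  have hε0 : 0 < ε := by rw [hε]; positivity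
  have hε1 : ε ≤ η / 16 := by rw [hε]; exact min_le_left _ _
  have hε2 : ε ≤ 1 / 2 := by rw [hε]; exact min_le_right _ _
  have hnat : Tendsto (fun x : ℕ => (x : ℝ)) atTop atTop := tendsto_natCast_atTop_atTop
  have e1 : ∀ᶠ x : ℕ in atTop, (Nat.primeCounting x : ℝ) / ((x : ℝ) / Real.log x) < 1 + ε := by
    have h := (Pool.Agent.Common_PNT.tendsto_primeCounting).comp hnat
    have h2 := h.eventually (gt_mem_nhds (show (1 : ℝ) < 1 + ε by linarith))
    filter_upwards [h2] with x hx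
    simp only [Function.comp_apply, Nat.floor_natCast] at hx
    exact hx
  have hcx : Tendsto (fun x : ℕ => c * (x : ℝ)) atTop atTop := hnat.const_mul_atTop hc0
  have e2 : ∀ᶠ x : ℕ in atTop, 1 - ε <
      (Nat.primeCounting ⌊c * (x : ℝ)⌋₊ : ℝ) / ((c * (x : ℝ)) / Real.log (c * (x : ℝ))) := by
    have h := (Pool.Agent.Common_PNT.tendsto_primeCounting).comp hcx
    have h2 := h.eventually (lt_mem_nhds (show (1 - ε : ℝ) < 1 by linarith))
    filter_upwards [h2] with x hx
    simp only [Function.comp_apply] at hx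
    exact hx
  have e3 : ∀ᶠ x : ℕ in atTop, 2 * K / η ≤ Real.log x :=
    (Real.tendsto_log_atTop.comp hnat).eventually (eventually_ge_atTop _)
  have e4 : ∀ᶠ x : ℕ in atTop, X₁ ≤ x := eventually_ge_atTop _
  have e5 : ∀ᶠ x : ℕ in atTop, 1 < c * (x : ℝ) := hcx.eventually (eventually_gt_atTop _)
  obtain ⟨X₂, hX₂⟩ := eventually_atTop.mp (e1.and (e2.and (e3.and (e4.and e5))))
  refine ⟨X₂, fun x hx => ?_⟩
  obtain ⟨f1, f2, f3, f4, f5⟩ := hX₂ x hx
  have hx0 : (0 : ℝ) < (x : ℝ) := by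
    by_contra hcon
    have : c * (x : ℝ) ≤ 0 := mul_nonpos_of_nonneg_of_nonpos hc0.le (not_lt.mp hcon)
    linarith
  have hcxx : c * (x : ℝ) ≤ (x : ℝ) := by nlinarith
  have hx1 : (1 : ℝ) < (x : ℝ) := lt_of_lt_of_le f5 hcxx
  have hL : 0 < Real.log x := Real.log_pos hx1
  have hLc : 0 < Real.log (c * x) := Real.log_pos f5
  have hLL : Real.log (c * x) ≤ Real.log x := Real.log_le_log (by linarith) hcxx
  obtain ⟨Q, hQ⟩ : ∃ Q : ℝ, Q = (x : ℝ) / Real.log x := ⟨_, rfl⟩
  have hQ0 : 0 < Q := by rw [hQ]; positivity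
  rw [← hQ]
  -- the sets
  obtain ⟨S, hS⟩ : ∃ S : ℕ → Finset ℕ, ∀ a, S a =
      ((pr (Icc 1 x)).filter (fun n => ((a + 1) * n + 1).Prime)).image
        (fun l => (a + 1) * l + 1) := ⟨_, fun _ => rfl⟩
  obtain ⟨P, hP⟩ : ∃ P : Finset ℕ, P =
      (range (x + 1)).filter (fun p : ℕ => p.Prime ∧ c * (x : ℝ) < (p : ℝ)) := ⟨_, rfl⟩
  have hsub : lss x ⊆ (range A).biUnion S ∪ P := by
    intro p hp
    unfold lss at hp
    rw [Finset.mem_filter, Finset.mem_Icc] at hp
    obtain ⟨⟨hp1, hpx⟩, hpp, l, hl, hld, _, hpl⟩ := hp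
    obtain ⟨a, ha⟩ := hld
    have hp2 := hpp.two_le
    have ha0 : a ≠ 0 := by
      intro h0
      rw [h0, mul_zero] at ha
      omega
    have hpe : p = a * l + 1 := by
      rw [mul_comm] at ha
      omega
    by_cases haA : a ≤ A
    · refine Finset.mem_union_left _ ?_
      rw [Finset.mem_biUnion]
      refine ⟨a - 1, Finset.mem_range.mpr (by omega), ?_⟩
      rw [hS, Finset.mem_image]
      have ha1 : a - 1 + 1 = a := by omega
      refine ⟨l, ?_, by rw [ha1, ← hpe]⟩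
      rw [Finset.mem_filter, mem_pr, Finset.mem_Icc, ha1, ← hpe]
      have hlp : l ≤ a * l := Nat.le_mul_of_pos_left _ (Nat.pos_of_ne_zero ha0)
      exact ⟨⟨⟨hl.one_lt.le, by omega⟩, hl⟩, hpp⟩
    · refine Finset.mem_union_right _ ?_
      rw [hP, Finset.mem_filter, Finset.mem_range]
      refine ⟨by omega, hpp, ?_⟩
      have g1 : ((A : ℝ) + 1) * l ≤ p := by
        have g2 : (A + 1) * l ≤ p := by
          rw [hpe]
          have := Nat.mul_le_mul_right l (Nat.succ_le_of_lt (not_le.mp haA))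
          exact this.trans (Nat.le_succ _)
        exact_mod_cast g2
      have g3 : (x : ℝ) < (p : ℝ) + (l : ℝ) := by exact_mod_cast hpl
      have hl0 : (0 : ℝ) < (l : ℝ) := by exact_mod_cast hl.pos
      -- c x < c (p + l) <= p
      have g4 : c * (x : ℝ) < c * ((p : ℝ) + l) := mul_lt_mul_of_pos_left g3 hc0
      have g5 : c * ((p : ℝ) + l) ≤ p := by
        have g6 : c * (((A : ℝ) + 1) * ((p : ℝ) + l)) ≤ (p : ℝ) * ((A : ℝ) + 1) := by
          have g7 : c * (((A : ℝ) + 1) * ((p : ℝ) + l)) = A * ((p : ℝ) + l) := by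
            rw [← mul_assoc, hcA]
          rw [g7]
          nlinarith
        have hA1 : (0 : ℝ) < (A : ℝ) + 1 := by linarith
        by_contra hcon
        rw [not_le] at hcon
        have := mul_lt_mul_of_pos_right hcon hA1
        nlinarith
      linarith
  -- cardinalities
  have hcard1 : ((lss x).card : ℝ) ≤ ∑ a ∈ range A, ((S a).card : ℝ) + (P.card : ℝ) := by
    have h := (Finset.card_le_card hsub).trans ((Finset.card_union_le _ _).trans
      (Nat.add_le_add_right Finset.card_biUnion_le _))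
    exact_mod_cast h
  have hcard2 : ∑ a ∈ range A, ((S a).card : ℝ) ≤ K * x / (Real.log x) ^ 2 := by
    rw [hK, Finset.sum_mul, Finset.sum_div]
    refine Finset.sum_le_sum fun a ha => ?_
    refine le_trans ?_ (hX a x ((hX₁ a ha).trans f4))
    rw [hS]
    exact_mod_cast Finset.card_image_le
  have hcard3 : K * x / (Real.log x) ^ 2 ≤ η / 2 * Q := by
    have h2 : K ≤ η / 2 * Real.log x := by
      rw [div_le_iff₀ hη] at f3
      linarith
    rw [div_le_iff₀ (by positivity), hQ]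
    have h3 : η / 2 * ((x : ℝ) / Real.log x) * Real.log x ^ 2 = η / 2 * Real.log x * x := by
      field_simp
    rw [h3]
    exact mul_le_mul_of_nonneg_right h2 hx0.le
  have hcard4 : (P.card : ℝ) + (Nat.primeCounting ⌊c * (x : ℝ)⌋₊ : ℝ) ≤
      (Nat.primeCounting x : ℝ) := by
    have hdis : Disjoint P ((range (⌊c * (x : ℝ)⌋₊ + 1)).filter Nat.Prime) := by
      rw [Finset.disjoint_left]
      intro p hp hq
      rw [hP, Finset.mem_filter] at hp
      rw [Finset.mem_filter, Finset.mem_range] at hq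
      have h2 : (p : ℝ) ≤ c * (x : ℝ) :=
        (Nat.le_floor_iff (by positivity)).mp (Nat.lt_succ_iff.mp hq.1)
      linarith [hp.2.2]
    have h3 : P ∪ ((range (⌊c * (x : ℝ)⌋₊ + 1)).filter Nat.Prime) ⊆
        (range (x + 1)).filter Nat.Prime := by
      intro p hp
      rcases Finset.mem_union.mp hp with hp | hp
      · rw [hP, Finset.mem_filter] at hp
        exact Finset.mem_filter.mpr ⟨hp.1, hp.2.1⟩
      · rw [Finset.mem_filter, Finset.mem_range] at hp
        refine Finset.mem_filter.mpr ⟨Finset.mem_range.mpr ?_, hp.2⟩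
        have h4 : ⌊c * (x : ℝ)⌋₊ ≤ x := Nat.floor_le_of_le hcxx
        omega
    have h4 := Finset.card_le_card h3
    rw [Finset.card_union_of_disjoint hdis, ← pc_card, ← pc_card] at h4
    exact_mod_cast h4
  have hp1 : (Nat.primeCounting x : ℝ) ≤ (1 + ε) * Q := by
    rw [← hQ, div_lt_iff₀ hQ0] at f1
    exact f1.le
  have hp2 : (1 - ε) * (c * Q) ≤ (Nat.primeCounting ⌊c * (x : ℝ)⌋₊ : ℝ) := by
    rw [lt_div_iff₀ (div_pos (by linarith) hLc)] at f2
    refine le_trans ?_ f2.le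
    refine mul_le_mul_of_nonneg_left ?_ (by linarith)
    rw [hQ, ← mul_div_assoc]
    exact div_le_div_of_nonneg_left (by positivity) hLc hLL
  have hcc : 1 - c ≤ η / 4 := by
    have h2 : (1 - c) * ((A : ℝ) + 1) = 1 := by
      rw [sub_mul, hcA]
      ring
    have h3 : 1 ≤ η / 4 * ((A : ℝ) + 1) := by
      rw [div_le_iff₀ hη] at hA
      nlinarith
    have hA1 : (0 : ℝ) < (A : ℝ) + 1 := by linarith
    by_contra hcon
    rw [not_le] at hcon
    have := mul_lt_mul_of_pos_right hcon hA1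
    linarith
  have hPc : (P.card : ℝ) ≤ η / 2 * Q := by
    have h2 : (P.card : ℝ) ≤ ((1 + ε) - (1 - ε) * c) * Q := by
      have h3 : ((1 + ε) - (1 - ε) * c) * Q = (1 + ε) * Q - (1 - ε) * (c * Q) := by ring
      rw [h3]
      linarith
    refine h2.trans (mul_le_mul_of_nonneg_right ?_ hQ0.le)
    have h4 : ε * c ≤ ε * 1 := mul_le_mul_of_nonneg_left hc1.le hε0.le
    nlinarith
  linarith

end Pool.Agent.EWG.H62
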